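import Pool.Agent.Helper61_LT.All

/-!
# Vanishing of the L2-torsion for sofic groups with an infinite amenable normal subgroup

`G` is a sofic group, `N` an infinite amenable normal subgroup, `C` a finite free resolution with
bases of the trivial module `ℤ` over `ℤ[G]` (for example the cellular chain complex of the universal
cover of a finite CW model of `BG`). Then all L2-Betti numbers of `C` are zero, `C` is of
determinant class, and the L2-torsion of `C` is zero.

The combinatorial Laplacian `Δ_p` acts on the Hilbert space `ℓ²(G)^(cells of dimension p)` by right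
multiplication with the matrix `C.lap p` over `ℤ[G]`. Its spectral measure with respect to the von
Neumann trace is determined by its moments, the traces of the powers of `Δ_p`, since it has bounded
support. (In `Pool/Agent/Helper91_LT/Opr2.lean`, theorem `opr`, it is proved that `∫ f dμ` is the
von Neumann trace of `f(Δ_p)`, for every continuous function `f`.)
-/

set_option autoImplicit false

namespace Pool.Agent.Results.MP_9f8a85_al.SoficTorsion

open Matrix MeasureTheory

/-! ### The groups -/

/-- Sofic groups: for every finite `E ⊆ G` and `ε > 0` there is a map `σ` of `G` to the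
permutations of a finite nonempty set which is multiplicative on `E` and fixed point free on
`E ∖ {1}` up to a proportion `ε` of the points. -/
def IsSofic (G : Type) [Group G] : Prop := ∀ (E : Finset G) (ε : ℝ), 0 < ε →
  ∃ (n : ℕ) (σ : G → Equiv.Perm (Fin n)), 0 < n ∧
    (∀ g ∈ E, ∀ h ∈ E, ({v | σ g (σ h v) ≠ σ (g * h) v}.ncard : ℝ) ≤ ε * n) ∧
    ∀ g ∈ E, g ≠ 1 → ({v | σ g v = v}.ncard : ℝ) ≤ ε * n

/-- Amenable groups: for every finite `T ⊆ N` and `ε > 0` there is a finite nonempty `F ⊆ N` such
that each `t ∈ T` moves at most `ε |F|` elements of `F` out of `F` (Foelner condition). -/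
def IsAmenable (N : Type) [Group N] : Prop := ∀ (T : Finset N) (ε : ℝ), 0 < ε →
  ∃ F : Finset N, F.Nonempty ∧ ∀ t ∈ T, ({f | f ∈ F ∧ t * f ∉ F}.ncard : ℝ) ≤ ε * F.card

section

variable {G : Type} [Group G]

/-! ### Resolutions -/

/-- The augmentation `ℤ[G] → ℤ`: the sum of the coefficients. -/
noncomputable def augm (a : MonoidAlgebra ℤ G) : ℤ := a.coeff.sum fun _ c => c

/-- A finite free resolution with bases of the trivial module `ℤ` over `ℤ[G]` (left modules; the
elements of the free module with basis `X` are the row vectors `z : X → ℤ[G]`, and `X` is the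
disjoint union of the bases `{x | dim x = p}` of the chain modules). For a finite CW model of
`BG`, `X` is the set of its cells, `bd` the boundary matrix of the cellular chain complex of the
universal cover and `aug` is `1` on the vertices. -/
structure Resolution (G : Type) [Group G] where
  /-- the cells -/
  X : Type
  /-- there are finitely many cells -/
  fin : Fintype X
  /-- decidable equality of cells -/
  dec : DecidableEq X
  /-- the dimension of a cell -/
  dim : X → ℕ
  /-- the boundary matrix: the boundary of the basis element `x` is `∑ y, bd x y • y` -/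
  bd : Matrix X X (MonoidAlgebra ℤ G)
  /-- the augmentation of a cell -/
  aug : X → ℤ
  /-- the boundary lowers the dimension by one -/
  bd_dim : ∀ x y, bd x y ≠ 0 → dim x = dim y + 1
  /-- the augmentation is zero except in dimension zero -/
  aug_dim : ∀ x, aug x ≠ 0 → dim x = 0
  /-- exactness: a chain is a boundary iff it is a cycle with augmentation zero -/
  exact : ∀ z : X → MonoidAlgebra ℤ G,
    (z ᵥ* bd = 0 ∧ ∑ x, augm (z x) * aug x = 0) ↔ ∃ y : X → MonoidAlgebra ℤ G, y ᵥ* bd = z
  /-- the augmentation is onto `ℤ` -/
  aug_surj : ∃ z : X → MonoidAlgebra ℤ G, ∑ x, augm (z x) * aug x = 1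

attribute [instance] Resolution.fin Resolution.dec

/-- The cells of dimension `p`. -/
abbrev Resolution.cell (C : Resolution G) (p : ℕ) : Type := {x : C.X // C.dim x = p}

/-! ### The Laplacians and their spectral measures -/

/-- The involution of the group ring: `∑ a_g g ↦ ∑ a_g g⁻¹`. -/
noncomputable def invol (a : MonoidAlgebra ℤ G) : MonoidAlgebra ℤ G :=
  MonoidAlgebra.ofCoeff (a.coeff.mapDomain fun g => g⁻¹)

/-- The adjoint matrix: right multiplication with it is the adjoint of the operator
`ℓ²(G)^X → ℓ²(G)^Y` of right multiplication with `A`. -/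
noncomputable def adj {X Y : Type} (A : Matrix X Y (MonoidAlgebra ℤ G)) :
    Matrix Y X (MonoidAlgebra ℤ G) := fun y x => invol (A x y)

/-- The von Neumann trace of right multiplication with `A` on `ℓ²(G)^X`: the sum of the
coefficients at `1` of the diagonal entries of `A`. -/
noncomputable def trN {X : Type} [Fintype X] (A : Matrix X X (MonoidAlgebra ℤ G)) : ℤ :=
  ∑ x, (A x x).coeff 1

/-- The matrix of the combinatorial Laplacian `Δ_p = (d_p)^* d_p + d_(p+1) (d_(p+1))^*` on
`ℓ²(G)^(cells of dimension p)`: the block in dimension `p` of `bd bd^* + bd^* bd`. -/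
noncomputable def Resolution.lap (C : Resolution G) (p : ℕ) :
    Matrix (C.cell p) (C.cell p) (MonoidAlgebra ℤ G) :=
  (C.bd * adj C.bd + adj C.bd * C.bd).submatrix Subtype.val Subtype.val

/-- `μ` is the spectral measure, with respect to the von Neumann trace, of the positive operator
given by the matrix `A`: the finite measure on a bounded interval `[0, K]` whose moments are the
traces of the powers of `A`. -/
structure IsSpectralMeasure {X : Type} [Fintype X] [DecidableEq X]
    (A : Matrix X X (MonoidAlgebra ℤ G)) (μ : Measure ℝ) : Prop where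
  finite : IsFiniteMeasure μ
  bounded : ∃ K : ℝ, μ (Set.Icc 0 K)ᶜ = 0
  moments : ∀ k : ℕ, ∫ t, t ^ k ∂μ = (trN (A ^ k) : ℝ)

/-- `μ p` is the spectral measure of the `p`-th Laplacian of `C`, for all `p`. -/
def Resolution.Spectral (C : Resolution G) (μ : ℕ → Measure ℝ) : Prop :=
  ∀ p, IsSpectralMeasure (C.lap p) (μ p)

/-- The logarithm of the Fuglede-Kadison determinant of the `p`-th Laplacian, restricted to the
orthogonal complement of its kernel, if `μ p` is its spectral measure. -/
noncomputable def logDet (μ : ℕ → Measure ℝ) (p : ℕ) : ℝ := ∫ t in Set.Ioi 0, Real.log t ∂(μ p)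

/-- The L2-torsion of `C`, if the `μ p` are the spectral measures of the Laplacians. -/
noncomputable def Resolution.torsion (C : Resolution G) (μ : ℕ → Measure ℝ) : ℝ :=
  -(1 / 2) * ∑ p ∈ Finset.range (Finset.univ.sup C.dim + 1), (-1) ^ p * (p : ℝ) * logDet μ p

/-! ### Comparison with the definitions of the proof -/

/-- The resolution in the sense of the proof. -/
noncomputable def toRes (C : Resolution G) : LT.Res G where
  X := C.X
  fin := C.fin
  dec := C.dec
  dim := C.dim
  bd := C.bd
  aug := C.aug
  bd_dim := C.bd_dim
  aug_dim := C.aug_dim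
  exact := C.exact
  aug_surj := C.aug_surj

theorem spectral_iff (C : Resolution G) (p : ℕ) (μ : Measure ℝ) :
    IsSpectralMeasure (C.lap p) μ ↔ LT.IsSpec ((toRes C).lapp p) μ :=
  ⟨fun h => ⟨h.finite, h.bounded, h.moments⟩, fun h => ⟨h.fin, h.supp, h.mom⟩⟩

end

/-- **Theorem.** Let `G` be a sofic group with an infinite amenable normal subgroup `N`, and `C` a
finite free resolution of `ℤ` over `ℤ[G]`. The Laplacians of `C` have unique spectral measures
`μ p`; all L2-Betti numbers `μ p {0}` are zero; `C` is of determinant class; and the L2-torsion of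
`C` is zero. -/
theorem result (G : Type) [Group G] (hG : IsSofic G) (N : Subgroup G) (hN : N.Normal)
    (hinf : Infinite N) (ham : IsAmenable N) (C : Resolution G) :
    ∃ μ : ℕ → Measure ℝ, C.Spectral μ ∧ (∀ ν, C.Spectral ν → ν = μ) ∧ (∀ p, μ p {0} = 0) ∧
      (∀ p, IntegrableOn Real.log (Set.Ioi 0) (μ p)) ∧ C.torsion μ = 0 := by
  obtain ⟨h1, h2, h3, h4⟩ := LT.H61.main G hG N hN hinf ham (toRes C)
  refine ⟨(toRes C).spec, fun p => (spectral_iff C p _).mpr (h1 p), fun ν hν => ?_, h2, h3, h4⟩
  funext p
  exact LT.H91.uni G _ _ _ _ ((spectral_iff C p _).mp (hν p)) (h1 p)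

end Pool.Agent.Results.MP_9f8a85_al.SoficTorsion
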